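import Mathlib
import Pool.Agent.W_MP_5f5bee_gt.PlumbMain

/-!
# MP_5f5bee_gt: real places and plumbings of annuli

Let `K` be a knot with a Seifert surface `S` whose complement is a handlebody.  The group of the
complement of `S` is free on `x_1, …, x_n`, the group of `S` is free on `s_1, …, s_n`, and if `u_j`
and `v_j` are the push-offs of `s_j` to the two sides of `S`, then
`G(K) = ⟨x_1, …, x_n, t | t u_j t⁻¹ = v_j⟩` with `t` a meridian (`KnotGroup u v`).

If `S` is obtained from a fibre surface (possibly a disc) by successively plumbing unknotted annuli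
`A_j` with `b_j` full twists, each on the same side of the surface already built, then, for
suitable bases, `u_j = g_j x_j^(b_j) h_j` with `g_j, h_j ∈ ⟨x_i : i < j⟩` (`IsTriangular`; one has
`u_j = x_j` for the fibre surface), and for an annulus `A_j` the loop `x_j` runs round the band
`A_j`, so it is the product of a meridian and of the inverse of a meridian (`BandLoops`).  All
special arborescent knots (boundaries of plumbings of annuli along a tree) are of this kind; they
include all 2-bridge knots.  Such a knot is fibered iff all `|b_j| = 1`.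

The theorem: let `ρ : G(K) → SL(2, ℂ)` be a representation with `tr ρ(t) = 2` (for example the
lift `ρ_0` of the holonomy representation) whose trace field has an embedding in `ℝ`.  If all
`b_j ≠ 0`, then the twisted Alexander polynomial `Δ_{K,ρ}` is monic iff all `|b_j| = 1`.
-/

open scoped LaurentPolynomial MatrixGroups
open LaurentPolynomial Pool.Agent.W_MP_5f5bee_gt Pool.Agent.W_MP_5f5bee_gt.Plumb

theorem Pool.Agent.Results.MP_5f5bee_gt.AnnulusPlumbing.result
    (n : ℕ) (b : Fin n → ℤ) (u v : Fin n → FreeGroup (Fin n))
    (hu : IsTriangular b u) (hb : ∀ j, b j ≠ 0) (hband : BandLoops b u v)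
    (ρ : Plumb.KnotGroup u v →* SL(2, ℂ)) (ht : (ρ (Plumb.toKnot u v gt)).1.trace = 2)
    (hreal : Nonempty (traceField ρ →+* ℝ))
    (Δ : ℂ[T;T⁻¹]) (hΔ : Plumb.IsTwistedAlexander u v ρ Δ) :
    IsMonicL Δ ↔ ∀ j, |b j| = 1 :=
  Plumb.main hu hb hband ρ ht hreal Δ hΔ
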