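import Mathlib
import Pool.Agent.W_MP_5f5bee_gt.Main
import Pool.Agent.W_MP_5f5bee_gt.Statement

/-!
# MP_5f5bee_gt: the twisted Alexander polynomial detects fiberedness for 2-bridge knots

Let `K` be the 2-bridge knot which is the 4-plat closure with twist regions of
`b_1, …, b_{2g}` full twists (all `b_i ≠ 0`), alternately on the strands 2, 3 and 1, 2; the list
`L` holds the pairs `(b_{2g-1}, b_{2g}), …, (b_1, b_2)`.  Every 2-bridge knot arises (even
continued fractions), its genus is `g`, and it is fibered iff all `|b_i| = 1`.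

`KnotGroup L` is its group `⟨x, y | r⟩`, `IsFox` characterizes the Fox derivative `∂/∂x`, `Phi` is
the ring map extending `g ↦ α(g) ρ(g)`, and `IsTwistedAlexander L ρ Δ` says
`Δ · det Φ(y - 1) = det Φ(∂r/∂x)`.

The theorem: let `ρ : G(K) → SL(2, ℂ)` be non-abelian with `tr ρ(x) = 2`.  Suppose that

* the trace field of `ρ` has a real embedding, or
* no element of `ρ(G(K))` is elliptic (this holds for lifts of the holonomy representation of a
  hyperbolic knot) and
  - at most one `|b_i|` is `≥ 2`, or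
  - an odd number of the `b_i` is even, and the determinant `p` of `K` divides some `2^m + 1`, or
  - `∏_i (∑_{k<|b_i|} z^{k l_i}) (∑_{k<|b_i|} z^{-k l_i}) ≠ 1` for all `z ≠ 1` with `z^p = 1`
    in fields of characteristic two.

Then the twisted Alexander polynomial is monic iff all `|b_i| = 1`.
-/

open scoped LaurentPolynomial MatrixGroups
open LaurentPolynomial Pool.Agent.W_MP_5f5bee_gt

theorem Pool.Agent.Results.MP_5f5bee_gt.TwoBridge.result
    (L : List (ℤ × ℤ)) (hL : ∀ p ∈ L, p.1 ≠ 0 ∧ p.2 ≠ 0)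
    (ρ : KnotGroup L →* SL(2, ℂ)) (hx : (ρ (toKnot L gx)).1.trace = 2)
    (hxy : ρ (toKnot L gx) * ρ (toKnot L gy) ≠ ρ (toKnot L gy) * ρ (toKnot L gx))
    (hcase : Nonempty (traceField ρ →+* ℝ) ∨
      NoElliptic ρ ∧
        ((twists L).countP (fun b => 2 ≤ |b|) ≤ 1 ∨
        (Odd ((twists L).countP fun b => Even b) ∧ ∃ m : ℕ, (uv L).2 ∣ 2 ^ m + 1) ∨
        ∀ (F : Type) [Field F] [CharP F 2] (z : F), z ^ (uv L).2 = 1 → z ≠ 1 →
          ((bandsZ L).map fun bl => (∑ k ∈ Finset.range bl.1.natAbs, z ^ (bl.2 * (k : ℤ))) *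
            ∑ k ∈ Finset.range bl.1.natAbs, z ^ (-(bl.2 * (k : ℤ)))).prod ≠ 1))
    (Δ : ℂ[T;T⁻¹]) (hΔ : IsTwistedAlexander L ρ Δ) :
    IsMonicL Δ ↔ ∀ b ∈ twists L, |b| = 1 := by
  obtain ⟨c, hc, h1, h2, h3, h4, h5, h6, h7⟩ := top_coeff L hL ρ hx hxy Δ hΔ.isWada
  constructor
  · intro hmon
    by_contra hnf
    refine not_monic hc ?_ ?_ h1 hmon
    · rcases hcase with h | ⟨h, -⟩
      · exact (h3 hnf h).1
      · exact h4 h
    · rcases hcase with h | ⟨h, hA | ⟨hB, m, hm⟩ | hC⟩
      · exact (h3 hnf h).2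
      · refine h5 h (le_antisymm hA ?_)
        rw [Nat.one_le_iff_ne_zero]
        intro h0
        rw [List.countP_eq_zero] at h0
        apply hnf
        intro b hb
        have h8 := h0 b hb
        have h9 := twists_ne_zero L hL b hb
        simp only [decide_eq_true_eq, not_le] at h8
        rw [Int.abs_eq_natAbs] at h8 ⊢
        omega
      · exact h6 m hm hB
      · exact h7 hC
  · intro hf
    exact ⟨_, Or.inl (h2 hf ▸ hc)⟩
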